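import Pool.Agent.MP_36f78e_lc.H75.Spec

/-!
One small step does not change the expectation of a circuit.
-/

set_option linter.unusedSectionVars false

namespace Pool.Agent.MP_36f78e_lc.H17

open Pool.Agent.MP_36f78e_lc.H75 Finset
open scoped BigOperators

variable {ι : Type} [Fintype ι] [DecidableEq ι]

/-- The expectation on a subcube. -/
noncomputable def extR (F : (ι → Bool) → ℝ) (β : Restr ι) (ν : ι → ℝ) : ℝ :=
  ext (fun x => F (fill β x)) ν

/-- The weight of a bit after a restriction. -/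
noncomputable def qw (ν : ℝ) : Option Bool → Bool → ℝ
  | none, b => (1 + ν * sg b) / 2
  | some c, b => if c = b then 1 else 0

lemma abs_sg (b : Bool) : |sg b| = 1 := by cases b <;> simp [sg]

lemma extR_eq (F : (ι → Bool) → ℝ) (β : Restr ι) (ν : ι → ℝ) :
    extR F β ν = ∑ y : ι → Bool, (∏ i, qw (ν i) (β i) (y i)) * F y := by
  have h : ∀ (y : ι → Bool) (i : ι), qw (ν i) (β i) (y i) =
      ∑ b : Bool, if (β i).getD b = y i then (1 + ν i * sg b) / 2 else 0 := fun y i => by
    rcases β i with _ | c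
    · simp [qw]
    · simp only [qw, Option.getD_some, Fintype.sum_bool, sg]
      split_ifs <;> simp_all <;> ring
  simp only [h, Fintype.prod_sum, Fintype.prod_ite_zero, Finset.sum_mul]
  rw [Finset.sum_comm, extR, H75.ext]
  refine Finset.sum_congr rfl fun x _ => ?_
  rw [Finset.sum_eq_single (fill β x)]
  · simp [fill]
  · intro y _ hy
    rw [if_neg fun h : ∀ i, (β i).getD (x i) = y i => hy (funext h).symm, zero_mul]
  · simp

lemma fill_ov (β ρ : Restr ι) (x : ι → Bool) : fill (ov β ρ) x = fill β (fill ρ x) :=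
  funext fun i => by
    simp only [fill, ov]
    rcases β i with _ | c <;> simp

lemma push (w : ι → Option Bool → ℝ) (hw : ∀ i, w i none + w i (some false) + w i (some true) = 1)
    (F : (ι → Bool) → ℝ) (ν : ι → ℝ) :
    ∑ ρ : Restr ι, (∏ i, w i (ρ i)) * extR F ρ ν =
      ext F fun i => w i none * ν i + w i (some false) - w i (some true) := by
  simp only [extR_eq, Finset.mul_sum, ← mul_assoc, ← Finset.prod_mul_distrib]
  rw [Finset.sum_comm, H75.ext]
  refine Finset.sum_congr rfl fun y _ => ?_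
  rw [← Finset.sum_mul, ← Fintype.prod_sum fun i o => w i o * qw (ν i) o (y i)]
  congr 1
  refine Finset.prod_congr rfl fun i _ => ?_
  have := hw i
  rw [Fintype.sum_option, Fintype.sum_bool]
  cases y i <;> simp [qw, sg] <;> linear_combination this / 2

lemma sum_w (w : ι → Option Bool → ℝ)
    (hw : ∀ i, w i none + w i (some false) + w i (some true) = 1) :
    ∑ ρ : Restr ι, ∏ i, w i (ρ i) = 1 := by
  rw [← Fintype.prod_sum]
  refine Finset.prod_eq_one fun i _ => ?_
  rw [Fintype.sum_option, Fintype.sum_bool, ← hw i]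
  ring

lemma round (p : ℝ) (F : (ι → Bool) → ℝ) (γ : Restr ι) (ν : ι → ℝ) :
    ∑ ρ, wt p ρ * extR F (ov γ ρ) ν = extR F γ fun i => p * ν i := by
  have := push (fun _ o => if o = none then p else (1 - p) / 2) (fun _ => by simp; ring)
    (fun x => F (fill γ x)) ν
  simp only [extR, ← fill_ov] at this
  simpa [extR, wt] using this

lemma Ex_extR (p : ℝ) (F : (ι → Bool) → ℝ) (k : ℕ) (ν : ι → ℝ) (β : Restr ι) :
    Ex p k (fun γ => extR F γ ν) β = extR F β fun i => p ^ k * ν i := by
  induction k generalizing ν with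
  | zero => simp [Ex]
  | succ k ih => simp only [Ex, round, ih, pow_succ, mul_assoc]

lemma avg {U A : Type} [Fintype U] [Fintype A] (v : A → ℝ) (h0 : ∀ a, 0 ≤ v a)
    (h1 : ∑ a, v a = 1) (g : U → A → ℝ) (g0 h : A → ℝ) (B : ℝ)
    (hb : ∀ a, |(𝔼 u, g u a) - g0 a| ≤ h a + B) :
    |(𝔼 u, ∑ a, v a * g u a) - ∑ a, v a * g0 a| ≤ ∑ a, v a * h a + B := by
  rw [Finset.expect_sum_comm, ← Finset.sum_sub_distrib]
  refine (Finset.abs_sum_le_sum_abs _ _).trans ?_
  calc ∑ a, |(𝔼 u, v a * g u a) - v a * g0 a| ≤ ∑ a, v a * (h a + B) :=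
        Finset.sum_le_sum fun a _ => by
          rw [← Finset.mul_expect, ← mul_sub, abs_mul, abs_of_nonneg (h0 a)]
          exact mul_le_mul_of_nonneg_left (hb a) (h0 a)
    _ = _ := by simp only [mul_add, Finset.sum_add_distrib, ← Finset.sum_mul, h1, one_mul]

lemma Ex_avg {U : Type} [Fintype U] {p : ℝ} (h0 : 0 ≤ p) (h1 : p ≤ 1) (B : ℝ) (k : ℕ)
    (G : U → Restr ι → ℝ) (G0 H : Restr ι → ℝ)
    (hb : ∀ γ, |(𝔼 u, G u γ) - G0 γ| ≤ H γ + B) (β : Restr ι) :
    |(𝔼 u, Ex p k (G u) β) - Ex p k G0 β| ≤ Ex p k H β + B := by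
  induction k generalizing G G0 H with
  | zero => exact hb β
  | succ k ih =>
    refine ih _ _ _ fun γ => avg (wt p) (fun ρ => Finset.prod_nonneg fun i _ => ?_)
      (sum_w (fun _ o => if o = none then p else (1 - p) / 2) fun _ => by simp; ring)
      (fun u ρ => G u (ov γ ρ)) _ _ B fun ρ => hb _
    split_ifs <;> linarith

lemma sum_wt (ν : ι → ℝ) : ∑ x : ι → Bool, ∏ i, (1 + ν i * sg (x i)) / 2 = 1 := by
  rw [← Fintype.prod_sum fun i b => (1 + ν i * sg b) / 2]
  refine Finset.prod_eq_one fun i _ => ?_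
  simp [sg]
  ring

lemma extR_mem (f : (ι → Bool) → Bool) (γ : Restr ι) {ν : ι → ℝ} (h : ∀ i, |ν i| ≤ 1) :
    0 ≤ extR (ind f) γ ν ∧ extR (ind f) γ ν ≤ 1 := by
  have hw : ∀ x : ι → Bool, 0 ≤ ∏ i, (1 + ν i * sg (x i)) / 2 := fun x =>
    Finset.prod_nonneg fun i _ => by
      have : |ν i * sg (x i)| ≤ 1 := by rw [abs_mul, abs_sg, mul_one]; exact h i
      linarith [(abs_le.1 this).1]
  refine ⟨Finset.sum_nonneg fun x _ => mul_nonneg (hw x) ?_,
    le_of_le_of_eq (Finset.sum_le_sum fun x _ => mul_le_of_le_one_right (hw x) ?_) (sum_wt ν)⟩ <;>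
  simp only [ind] <;> split_ifs <;> norm_num

lemma extR_leaf {f : (ι → Bool) → Bool} {γ : Restr ι} {c : Bool} (h : ∀ x, f (fill γ x) = c)
    (ν : ι → ℝ) : extR (ind f) γ ν = if c = true then 1 else 0 := by
  simp only [extR, H75.ext, ind, h, ← Finset.sum_mul, sum_wt, one_mul]

lemma extR_node (F : (ι → Bool) → ℝ) {γ : Restr ι} {i : ι} (hi : γ i = none) (ν : ι → ℝ) :
    extR F γ ν = ∑ b, (1 + ν i * sg b) / 2 * extR F (Function.update γ i (some b)) ν := by
  simp only [extR_eq, Finset.mul_sum, ← mul_assoc]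
  rw [Finset.sum_comm]
  refine Finset.sum_congr rfl fun y _ => ?_
  rw [← Finset.sum_mul]
  congr 1
  have e : ∀ o, ∏ j, qw (ν j) (Function.update γ i o j) (y j) =
      qw (ν i) o (y i) * ∏ j ∈ univ.erase i, qw (ν j) (γ j) (y j) := fun o => by
    rw [← Finset.mul_prod_erase _ _ (Finset.mem_univ i), Function.update_self]
    congr 1
    exact Finset.prod_congr rfl fun j hj => by
      rw [Function.update_of_ne (Finset.ne_of_mem_erase hj)]
  have e0 := e none
  rw [← hi, Function.update_eq_self, hi] at e0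
  simp only [e, e0, ← mul_assoc, ← Finset.sum_mul]
  congr 1
  simp [qw]

lemma geom {x η : ℝ} (h0 : 0 ≤ x) (h1 : x ≤ 1 / 2) (hη : 0 ≤ η) (N : ℕ) :
    ∑ m ∈ range N, (if m < 2 then 0 else if m = 2 then x ^ 2 * η else x ^ m) ≤
      x ^ 2 * η + 2 * x ^ 3 := by
  have key : ∀ N, ∑ m ∈ range (N + 3), (if m < 2 then 0 else if m = 2 then x ^ 2 * η else x ^ m) ≤
      x ^ 2 * η + 2 * x ^ 3 - 2 * x ^ (N + 3) := fun N => by
    induction N with
    | zero => simp [Finset.sum_range_succ]
    | succ N ih =>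
      rw [show N + 1 + 3 = N + 3 + 1 by ring, Finset.sum_range_succ, if_neg (by omega),
        if_neg (by omega), pow_succ x (N + 3)]
      nlinarith [pow_nonneg h0 (N + 3)]
  refine (Finset.sum_le_sum_of_subset_of_nonneg (Finset.range_mono (Nat.le_add_right N 3))
    fun m _ _ => ?_).trans ((key N).trans ?_)
  · split_ifs <;> positivity
  · linarith [pow_nonneg h0 (N + 3)]

lemma expect_bool {J : Type} [Fintype J] (g : Bool × J → ℝ) :
    𝔼 u, g u = ((𝔼 a, g (false, a)) + 𝔼 a, g (true, a)) / 2 := by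
  rw [← Finset.univ_product_univ, Finset.expect_product, Fintype.expect_eq_sum_div_card,
    Fintype.sum_bool, add_comm]
  simp

section Core

variable {J : Type} [Fintype J] [Nonempty J] {X : J → ι → Bool} {c : ι → ℝ} {ε η : ℝ} {t : ℕ}

lemma prod_bound (ht : 1 ≤ t) (h0 : 0 ≤ ε) (h1 : t * ε ≤ 1 / 2) (hη : 0 ≤ η) (hc : ∀ i, |c i| ≤ ε)
    (hX : ∀ i j, i ≠ j → c i ≠ 0 → c j ≠ 0 → |𝔼 a, sg (X a i) * sg (X a j)| ≤ η)
    (P : Finset ι) (hP : P.card ≤ t) :
    |(𝔼 u : Bool × J, ∏ i ∈ P, (1 + c i * sg (xor u.1 (X u.2 i)))) - 1| ≤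
      (t * ε) ^ 2 * η + 2 * (t * ε) ^ 3 := by
  have e1 : (1 : ℝ) = ∑ S ∈ P.powerset, if S = ∅ then 1 else 0 := by simp
  simp only [Finset.prod_one_add, Finset.expect_sum_comm]
  rw [e1, ← Finset.sum_sub_distrib]
  refine (Finset.abs_sum_le_sum_abs _ _).trans ?_
  let g : ℕ → ℝ := fun m => if m < 2 then 0 else if m = 2 then ε ^ 2 * η else ε ^ m
  have hg : ∀ S : Finset ι, |(𝔼 u : Bool × J, ∏ i ∈ S, c i * sg (xor u.1 (X u.2 i))) -
      if S = ∅ then 1 else 0| ≤ g S.card := fun S => by
    by_cases a0 : S = ∅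
    · subst a0
      simp [g]
    rw [if_neg a0, sub_zero]
    by_cases a1 : S.card = 1
    · obtain ⟨i, rfl⟩ := Finset.card_eq_one.1 a1
      simp only [Finset.prod_singleton, expect_bool, ← Finset.expect_add_distrib]
      rw [Finset.expect_eq_zero fun a _ => by cases X a i <;> simp [sg]]
      simp [g]
    have a2 : ¬ S.card < 2 := by
      have := Finset.card_pos.2 (Finset.nonempty_iff_ne_empty.2 a0)
      omega
    by_cases a3 : S.card = 2
    · simp only [g, if_neg a2, if_pos a3]
      obtain ⟨i, j, hij, rfl⟩ := Finset.card_eq_two.1 a3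
      have e : ∀ u : Bool × J, ∏ l ∈ {i, j}, c l * sg (xor u.1 (X u.2 l)) =
          c i * c j * (sg (X u.2 i) * sg (X u.2 j)) := fun u => by
        rw [Finset.prod_pair hij]
        cases u.1 <;> cases X u.2 i <;> cases X u.2 j <;> simp [sg]
      simp only [e, ← Finset.mul_expect, expect_bool, add_self_div_two, abs_mul]
      by_cases b1 : c i = 0
      · rw [b1]; simp; positivity
      by_cases b2 : c j = 0
      · rw [b2]; simp; positivity
      rw [sq]
      exact mul_le_mul (mul_le_mul (hc i) (hc j) (abs_nonneg _) h0) (hX i j hij b1 b2)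
        (abs_nonneg _) (mul_nonneg h0 h0)
    · simp only [g, if_neg a2, if_neg a3]
      refine (Finset.abs_expect_le _ _).trans (Finset.expect_le univ_nonempty fun u _ => ?_)
      rw [Finset.abs_prod, ← Finset.prod_const]
      exact Finset.prod_le_prod (fun _ _ => abs_nonneg _) fun i _ => by
        rw [abs_mul, abs_sg, mul_one]; exact hc i
  refine (Finset.sum_le_sum fun S _ => hg S).trans ?_
  rw [Finset.sum_powerset_apply_card]
  refine (Finset.sum_le_sum fun m _ => ?_).trans (geom (by positivity) h1 hη (P.card + 1))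
  have hm : (P.card.choose m : ℝ) ≤ (t : ℝ) ^ m := by
    exact_mod_cast (Nat.choose_le_pow _ _).trans (Nat.pow_le_pow_left hP m)
  rw [nsmul_eq_mul]
  simp only [g]
  split_ifs with a1 a2
  · simp
  · rw [mul_pow, mul_assoc, ← a2]
    exact mul_le_mul_of_nonneg_right hm (by positivity)
  · rw [mul_pow]
    exact mul_le_mul_of_nonneg_right hm (by positivity)

lemma core (ht : 1 ≤ t) (h0 : 0 ≤ ε) (h1 : t * ε ≤ 1 / 2) (hη : 0 ≤ η) (hc : ∀ i, |c i| ≤ ε)
    (hX : ∀ i j, i ≠ j → c i ≠ 0 → c j ≠ 0 → |𝔼 a, sg (X a i) * sg (X a j)| ≤ η)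
    {f : (ι → Bool) → Bool} {γ : Restr ι} {s : ℕ} (h : DT f γ s) :
    ∀ (P : Finset ι) (c' : ι → ℝ), (∀ i, γ i = none → i ∉ P) → P.card + s ≤ t + 1 →
      (∀ i, |c' i| ≤ |c i|) →
      |(𝔼 u : Bool × J, (∏ i ∈ P, (1 + c' i * sg (xor u.1 (X u.2 i)))) *
          extR (ind f) γ fun i => c i * sg (xor u.1 (X u.2 i))) - extR (ind f) γ 0| ≤
        (t * ε) ^ 2 * η + 2 * (t * ε) ^ 3 := by
  induction h with
  | leaf γ s b h =>
    intro P c' _ hP hc'
    have nz : ∀ i, c' i ≠ 0 → c i ≠ 0 := fun i h h' => h (by simpa [h'] using hc' i)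
    simp only [extR_leaf h]
    split_ifs
    · simp only [mul_one]
      exact prod_bound ht h0 h1 hη (fun i => (hc' i).trans (hc i))
        (fun i j hij a b => hX i j hij (nz i a) (nz j b)) P (by omega)
    · simp
      positivity
  | node γ s i hi h ih =>
    intro P c' hγ hP hc'
    have hiP := hγ i hi
    have := avg (U := Bool × J) (fun _ : Bool => (1 / 2 : ℝ)) (fun _ => by norm_num) (by simp)
      (fun u b => (∏ j ∈ insert i P, (1 + Function.update c' i (c i * sg b) j *
        sg (xor u.1 (X u.2 j)))) * extR (ind f) (Function.update γ i (some b))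
          fun i => c i * sg (xor u.1 (X u.2 i)))
      (fun b => extR (ind f) (Function.update γ i (some b)) 0) (fun _ => 0) _
      fun b => (ih b (insert i P) _ (fun j hj => by
          by_cases e : j = i
          · subst e
            simp at hj
          · rw [Function.update_of_ne e] at hj
            simp [e, hγ j hj])
        (by rw [Finset.card_insert_of_notMem hiP]; omega)
        (fun j => by
          by_cases e : j = i
          · subst e
            rw [Function.update_self, abs_mul, abs_sg, mul_one]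
          · rw [Function.update_of_ne e]
            exact hc' j)).trans_eq (zero_add _).symm
    simp only [mul_zero, Finset.sum_const_zero, zero_add] at this
    convert this using 3
    · refine Finset.expect_congr rfl fun u _ => ?_
      rw [extR_node _ hi, Finset.mul_sum]
      refine Finset.sum_congr rfl fun b _ => ?_
      have e : ∏ j ∈ P, (1 + Function.update c' i (c i * sg b) j * sg (xor u.1 (X u.2 j))) =
          ∏ j ∈ P, (1 + c' j * sg (xor u.1 (X u.2 j))) := Finset.prod_congr rfl fun j hj => by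
        rw [Function.update_of_ne (ne_of_mem_of_not_mem hj hiP)]
      rw [Finset.prod_insert hiP, Function.update_self, e]
      ring
    · rw [extR_node _ hi]
      simp

end Core

theorem step : SwitchStmt → StepStmt := by
  classical
  intro hS ι _ _ J _ _ X s t k f μ d δ ε η ht hf hμ hd hδ hε h1 hη hX
  have t1 : (1 : ℝ) ≤ t := by exact_mod_cast ht
  have h0 : 0 ≤ ε := le_trans (by positivity) hε
  have h2 : ε ≤ 1 := by nlinarith
  let c : ι → ℝ := fun i => 100 * (20 * t) ^ k * d i
  have hc : ∀ i, |c i| ≤ ε := fun i => by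
    rw [abs_mul, abs_of_nonneg (by positivity)]
    exact (mul_le_mul_of_nonneg_left (hd i) (by positivity)).trans hε
  have nz : ∀ i, c i ≠ 0 → d i ≠ 0 := fun i => right_ne_zero_of_mul
  let w : ι → Option Bool → ℝ := fun i o => o.elim (1 / 100) fun b => (99 / 100 + μ i * sg b) / 2
  have hw : ∀ i, w i none + w i (some false) + w i (some true) = 1 := fun i => by
    simp [w, sg]; ring
  have hw0 : ∀ ρ : Restr ι, 0 ≤ ∏ i, w i (ρ i) := fun ρ => Finset.prod_nonneg fun i _ => by
    have := abs_le.1 (hμ i)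
    rcases ρ i with _ | _ | _ <;> simp [w, sg] <;> linarith
  have key : ∀ σ : ι → ℝ, (ext (ind f) fun i => μ i + d i * σ i) = ∑ ρ : Restr ι,
      (∏ i, w i (ρ i)) * Ex (1 / (20 * t)) k (fun γ => extR (ind f) γ fun i => c i * σ i) ρ := by
    intro σ
    simp only [Ex_extR, push w hw]
    congr 1
    funext i
    simp only [w, c, sg, Option.elim, one_div, inv_pow]
    field_simp
    simp
    ring
  have k0 := key 0
  simp only [Pi.zero_apply, mul_zero, add_zero] at k0
  simp only [key]
  rw [show ext (ind f) μ = ext (ind f) fun i => μ i from rfl, k0]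
  refine (avg _ hw0 (sum_w w hw) _ _
    (fun ρ => Ex (1 / (20 * t)) k (fun γ => if DT f γ t then 0 else 1) ρ) _
    fun ρ => Ex_avg (by positivity) ?_ _ k _ _ _ (fun γ => ?_) ρ).trans (add_le_add_left ?_ _)
  · rw [div_le_one (by positivity)]
    linarith
  · split_ifs with h
    · have := core ht h0 h1 hη hc (fun i j hij a b => hX i j hij (nz i a) (nz j b)) h ∅ c
        (by simp) (by simp) fun _ => le_rfl
      simp only [Finset.prod_empty, one_mul] at this
      rw [zero_add]
      exact this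
    · have a1 := fun u : Bool × J => extR_mem f γ (ν := fun i => c i * sg (xor u.1 (X u.2 i)))
        fun i => by rw [abs_mul, abs_sg, mul_one]; exact (hc i).trans h2
      have a2 := extR_mem f γ (ν := fun _ => 0) fun i => by simp
      have a3 := Finset.expect_nonneg (s := univ) fun u _ => (a1 u).1
      have a4 := Finset.expect_le univ_nonempty fun u _ => (a1 u).2
      have a5 : 0 ≤ (t * ε) ^ 2 * η + 2 * (t * ε) ^ 3 := by positivity
      rw [abs_le]
      constructor <;> linarith [a2.1, a2.2]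
  · refine (Finset.sum_le_sum fun ρ _ =>
      mul_le_mul_of_nonneg_left (hS ι s t k f ht hf ρ) (hw0 ρ)).trans ?_
    rw [← Finset.sum_mul, sum_w w hw, one_mul]

end Pool.Agent.MP_36f78e_lc.H17
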